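import Mathlib
import Pool.Agent.H54.SuperCat2

namespace Pool.Agent.Results.MP_f65ae4_nt.Int

open Nat Finset Pool.Agent.H54.SuperCat

/-- the multinomial coefficient `(4k)!/(k!)^4` -/
def M (k : ℕ) : ℚ := ((4 * k)! : ℚ) / (k ! : ℚ) ^ 4

/-- the normalised sum `a_n` -/
def a (n : ℕ) : ℚ :=
  (∑ k ∈ range n, (20 * k + 3) * M k * (-1024) ^ (n - 1 - k)) /
    (2 * n * (2 * n + 1) * ((2 * n).choose n : ℚ))

def T (n j : ℕ) : ℚ :=
  (-1) ^ j * h n ^ 2 * h (2 * n) * h j / (h (n - j) * j ! * (n + j)! * (2 * n)!)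
def G (n j : ℕ) : ℚ := T n j * (16 * n)
def P (n k : ℚ) : ℚ := 3 - 10 * k + 8 * k ^ 2 + 26 * n - 32 * n * k + 40 * n ^ 2
def F (n j : ℕ) : ℚ := T n j * (P n (n - j) / (n + j + 1))
def G2 (n j : ℕ) : ℚ := T n j * (4 * (2 * n + 1) * (4 * n + 1) / (2 * n - 2 * j + 1))
def V (n j : ℕ) : ℚ := T n j * (-16 * j * (n + j) / (2 * n - 2 * j + 1))

lemma wz (j e : ℕ) :
    F (j + e + 1) (j + 1) - F (j + e + 1) j = G (j + e + 1 + 1) (j + 1) - G (j + e + 1) j := by
  simp only [F, G, T, P]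
  rw [show j + e + 1 - (j + 1) = e by omega, show j + e + 1 - j = e + 1 by omega,
    show j + e + 1 + 1 - (j + 1) = e + 1 by omega,
    show j + e + 1 + (j + 1) = j + e + 1 + j + 1 by omega,
    show j + e + 1 + 1 + (j + 1) = j + e + 1 + j + 1 + 1 by omega,
    show 2 * (j + e + 1 + 1) = 2 * (j + e + 1) + 1 + 1 by omega]
  generalize hA : 2 * (j + e + 1) = A
  generalize hB : j + e + 1 + j = B
  generalize hn : j + e + 1 = n
  have := (h_pos e).ne'
  simp only [h, factorial_succ, pow_succ]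
  push_cast
  field_simp
  rw [← hA, ← hB, ← hn]
  push_cast
  ring

lemma wz0 (n : ℕ) : F n 0 = G (n + 1) 0 := by
  simp only [F, G, T, P, Nat.sub_zero, add_zero, show 2 * (n + 1) = 2 * n + 1 + 1 by ring]
  have := (h_pos n).ne'
  simp only [h, factorial_succ]
  push_cast
  field_simp
  ring

lemma tele (j e : ℕ) :
    G2 (j + e + 1) j - G (j + e + 1) j = V (j + e + 1) (j + 1) - V (j + e + 1) j := by
  simp only [G2, G, T, V]
  rw [show j + e + 1 - (j + 1) = e by omega, show j + e + 1 - j = e + 1 by omega,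
    show j + e + 1 + (j + 1) = j + e + 1 + j + 1 by omega]
  generalize hA : 2 * (j + e + 1) = A
  generalize hB : j + e + 1 + j = B
  generalize hn : j + e + 1 = n
  have := (h_pos e).ne'
  simp only [h, factorial_succ, pow_succ]
  push_cast
  rw [show (2 * (n : ℚ) - 2 * j + 1) = 2 * e + 3 by rw [← hn]; push_cast; ring,
    show (2 * (n : ℚ) - 2 * (j + 1) + 1) = 2 * e + 1 by rw [← hn]; push_cast; ring]
  field_simp
  rw [← hB, ← hn]
  push_cast
  ring

lemma TT (n : ℕ) : T n n = M n / (-1024) ^ n := by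
  simp only [T, M, Nat.sub_self, ← two_mul, h_eq, show 2 * (2 * n) = 4 * n by ring]
  rw [show (-1024 : ℚ) = -1 * 4 ^ 5 by norm_num, mul_pow, ← pow_mul]
  rcases neg_one_pow_eq_or ℚ n with h | h <;> rw [h] <;> simp <;> field_simp <;> ring

lemma FF (n : ℕ) : F n n = (20 * n + 3) * M n / (-1024) ^ n := by
  rw [F, TT, P]
  field_simp
  ring

lemma psi (n : ℕ) : ∑ j ∈ range n, G n j = ∑ k ∈ range n, F k k := by
  induction n with
  | zero => rfl
  | succ n ih =>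
    rw [sum_range_succ', sum_range_succ, ← ih, ← wz0]
    have := sum_range_sub (F n) n
    rw [sum_congr rfl (g := fun j => G (n + 1) (j + 1) - G n j) fun j hj => by
      obtain ⟨e, rfl⟩ := Nat.exists_eq_add_of_lt (mem_range.1 hj)
      exact wz j e, sum_sub_distrib] at this
    linarith

lemma psi2 (n : ℕ) : ∑ j ∈ range n, G n j = ∑ j ∈ range n, G2 n j - V n n := by
  have := sum_range_sub (V n) n
  rw [sum_congr rfl (g := fun j => G2 n j - G n j) fun j hj => by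
    obtain ⟨e, rfl⟩ := Nat.exists_eq_add_of_lt (mem_range.1 hj)
    exact (tele j e).symm, sum_sub_distrib] at this
  simp only [V, Nat.cast_zero, mul_zero, zero_mul, zero_div, sub_zero] at this ⊢
  linarith

/-- normalising factor -/
def W (n : ℕ) : ℚ := (-1024) ^ n / (2 * (n + 1) * (2 * n + 3) * (4 ^ (n + 1) * h (n + 1) / (n + 1)!))

lemma a_eq (n : ℕ) : a (n + 1) = W n * ∑ k ∈ range (n + 1), F k k := by
  rw [a, cb, W, mul_sum, sum_div]
  refine sum_congr rfl fun k hk => ?_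
  obtain ⟨e, rfl⟩ := Nat.exists_eq_add_of_le (Nat.lt_succ_iff.1 (mem_range.1 hk))
  rw [FF, show k + e + 1 - 1 - k = e by omega, pow_add]
  have := (h_pos (k + e + 1)).ne'
  push_cast
  field_simp
  ring

lemma t1 (j e : ℕ) : (2 * (j + e : ℕ) + 3) * (W (j + e) * G (j + e + 1) j) =
    (-1) ^ e * 16 ^ e / 8 * (4 ^ j * h j / j !) *
      (4 ^ (j + e + 1 + j) * h (e + 1 + (j + e + 1 + j)) / (h (e + 1) * (j + e + 1 + j)!)) := by
  simp only [W, G, T]
  rw [show j + e + 1 - j = e + 1 by omega, show e + 1 + (j + e + 1 + j) = 2 * (j + e + 1) by ring,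
    show (-1024 : ℚ) = -1 * 4 ^ 5 by norm_num, h_eq (j + e + 1),
    show (16 : ℚ) = 4 ^ 2 by norm_num, mul_pow, ← pow_mul, ← pow_mul, pow_add]
  have := (h_pos (e + 1)).ne'
  push_cast
  rcases neg_one_pow_eq_or ℚ j with h | h <;> rw [h] <;> field_simp <;> ring

lemma t2 (j e : ℕ) : 64 * ((j + e : ℕ) + 1) * (W (j + e) * G2 (j + e + 1) j) =
    (-1) ^ e * 16 ^ e * 2 * (4 ^ j * h j / j !) *
      (4 ^ (j + e + 1 + j) * h (e + 1 + 1 + (j + e + 1 + j)) / (h (e + 1 + 1) * (j + e + 1 + j)!)) := by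
  simp only [W, G2, T]
  rw [show j + e + 1 - j = e + 1 by omega, show e + 1 + 1 + (j + e + 1 + j) = 2 * (j + e + 1) + 1 by ring,
    show (-1024 : ℚ) = -1 * 4 ^ 5 by norm_num, h_eq (j + e + 1), h.eq_2 (2 * (j + e + 1)), h.eq_2 (e + 1),
    show (16 : ℚ) = 4 ^ 2 by norm_num, mul_pow, ← pow_mul, ← pow_mul, pow_add]
  have := (h_pos (e + 1)).ne'
  push_cast
  rw [show (2 * ((j : ℚ) + e + 1) - 2 * j + 1) = 2 * e + 3 by ring,
    show (2 * ((e : ℚ) + 1) + 1) = 2 * e + 3 by ring]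
  rcases neg_one_pow_eq_or ℚ j with h | h <;> rw [h] <;> field_simp <;> ring

lemma t3 (n : ℕ) : 64 * (W n * V (n + 1) (n + 1)) =
    (n + 1) * (4 ^ (n + 1) * h (n + 1) / (n + 1)!) *
      (4 ^ (2 * (n + 1)) * h (2 * (n + 1)) / (2 * (n + 1))! / ((2 * (n + 1) : ℕ) + 1)) := by
  simp only [W, V, T, Nat.sub_self, ← two_mul]
  rw [h_eq (n + 1), show (-1024 : ℚ) = -1 * 4 ^ 5 by norm_num, mul_pow, ← pow_mul, pow_succ (-1 : ℚ)]
  push_cast
  rw [show (2 * ((n : ℚ) + 1) + 1) = 2 * n + 3 by ring, sub_self, h]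
  rcases neg_one_pow_eq_or ℚ n with h | h <;> rw [h] <;> field_simp <;> ring

lemma t4 (j : ℕ) : (2 * j + 1) * (4 ^ (j + 0 + 1 + j) * h (0 + 1 + (j + 0 + 1 + j)) /
    (h (0 + 1) * (j + 0 + 1 + j)!)) = 2 * (4 * j + 1) * (4 * j + 3) * (4 ^ (2 * j) * h (2 * j) / (2 * j)!) := by
  rw [show 0 + 1 + (j + 0 + 1 + j) = 2 * j + 1 + 1 by ring, show j + 0 + 1 + j = 2 * j + 1 by ring]
  simp only [h, factorial_succ]
  push_cast
  field_simp
  ring

lemma int (n : ℕ) : ∃ z : ℤ, a (n + 1 + 1) = z := by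
  have I : ∃ x : ℤ, (((2 * n + 3) * (2 * n + 5) : ℤ) : ℚ) * a (n + 1 + 1) = x := by
    rw [a_eq, ← psi, mul_sum, mul_sum]
    refine sum_int fun j hj => ?_
    obtain ⟨e, he⟩ := Nat.exists_eq_add_of_le (Nat.lt_succ_iff.1 hj)
    have e1 := t1 j e
    rw [← he] at e1
    push_cast at e1 ⊢
    rw [mul_assoc, show (2 * (n : ℚ) + 5) = 2 * (n + 1) + 3 by ring, e1]
    cases e with
    | zero =>
      obtain rfl : j = n + 1 := by omega
      obtain ⟨x, hx⟩ := even_cb n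
      obtain ⟨y, hy⟩ := even_cb (2 * n + 1)
      have e4 := t4 (n + 1)
      rw [show 2 * n + 1 + 1 = 2 * (n + 1) by ring] at hy
      rw [hy] at e4
      refine ⟨x * y * (4 * n + 5) * (4 * n + 7), ?_⟩
      rw [hx]
      push_cast at e4 ⊢
      linear_combination (x / 4 : ℚ) * e4
    | succ e =>
      obtain ⟨y, hy⟩ := bb (e + 1 + 1) (n + 1 + 1 + j)
      rw [hy, ← cb]
      exact ⟨(2 * n + 3) * ((-1) ^ (e + 1) * 16 ^ e * 2 * (2 * j).choose j * y), by push_cast; ring⟩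
  have II : ∃ y : ℤ, ((64 * (n + 2) : ℤ) : ℚ) * a (n + 1 + 1) = y := by
    rw [a_eq, ← psi, psi2, mul_sub, mul_sub, mul_sum, mul_sum]
    obtain ⟨x, hx⟩ := sum_int (n := n + 1 + 1)
      (f := fun j => ((64 * (n + 2) : ℤ) : ℚ) * (W (n + 1) * G2 (n + 1 + 1) j))
      fun j hj => by
        obtain ⟨e, he⟩ := Nat.exists_eq_add_of_le (Nat.lt_succ_iff.1 hj)
        obtain ⟨y, hy⟩ := bb (e + 1 + 1) (j + e + 1 + j)
        rw [show ((64 * (n + 2) : ℤ) : ℚ) = 64 * ((n + 1 : ℕ) + 1) by push_cast; ring, he, t2, hy, ← cb]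
        exact ⟨(-1) ^ e * 16 ^ e * 2 * (2 * j).choose j * y, by push_cast; ring⟩
    obtain ⟨z, hz⟩ := cat (2 * (n + 1 + 1))
    have h3 := t3 (n + 1)
    rw [hz, ← cb] at h3
    rw [hx]
    exact ⟨x - (n + 2) ^ 2 * (2 * (n + 1 + 1)).choose (n + 1 + 1) * z, by
      push_cast at h3 ⊢; linear_combination (-(n : ℚ) - 2) * h3⟩
  obtain ⟨x, hx⟩ := I
  obtain ⟨y, hy⟩ := II
  refine int_of_coprime ?_ hx hy
  rw [show (64 : ℤ) = 2 ^ 6 by norm_num]
  exact IsCoprime.mul_right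
    (IsCoprime.mul_left ⟨1, -((n : ℤ) + 1), by ring⟩ ⟨1, -((n : ℤ) + 2), by ring⟩).pow_right
    (IsCoprime.mul_left ⟨-1, 2, by ring⟩ ⟨1, -2, by ring⟩)

theorem result (n : ℕ) (hn : 2 ≤ n) : ∃ z : ℤ, 0 < z ∧ (-1) ^ (n - 1) * a n = z := by
  obtain ⟨n, rfl⟩ : ∃ m, n = m + 1 + 1 := ⟨n - 2, by omega⟩
  obtain ⟨z, hz⟩ := int n
  have h1 : 0 < (-1) ^ (n + 1) * a (n + 1 + 1) := by
    have h4 : 0 < ∑ k ∈ range (n + 1 + 1), F k k := by
      simp only [FF]
      refine alt_pos (t := fun k => (20 * k + 3) * M4 k) (by norm_num)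
        (fun k => by have := Mpos k; positivity) (by simp [M4, factorial]; norm_num) (fun k hk => ?_) _
      have h1 := Mle k
      have h2 := Mpos k
      have h3 : (1 : ℚ) ≤ k := by exact_mod_cast hk
      push_cast
      nlinarith [mul_le_mul_of_nonneg_left h1 (show (0 : ℚ) ≤ 20 * (k + 1) + 3 by positivity)]
    have h5 := h_pos (n + 1 + 1)
    rw [a_eq, W, ← mul_assoc, ← mul_div_assoc, ← mul_pow]
    norm_num
    positivity
  refine ⟨(-1) ^ (n + 1) * z, ?_, by rw [hz]; push_cast; rfl⟩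
  rw [hz] at h1
  exact_mod_cast h1

end Pool.Agent.Results.MP_f65ae4_nt.Int
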